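import Pool.Agent.Helper81.Sus3.Goals
import Pool.Agent.Helper81.Sus2.CMP

/-!
# Project SUS3, packet CMP: completeness of the machine on numbers, and exactness
-/

namespace Pool.Agent.Helper85.Sus3

open Pool.Agent.Helper65.LinSpace Pool.Agent.Helper78.Mpc Pool.Agent.Helper28.Ram Finset
  Pool.Agent.Helper81.Sus2 Pool.Agent.Helper28.Sus Pool.Agent.Helper81.Sus3
  Pool.Agent.Helper81.Sus2H13

theorem num_inj' : ∀ u v : List Bool, num u = num v → u = v
  | [], [], _ => rfl
  | [], b :: v, h => by
    have h1 := num_pos v
    have h2 : 1 = b.toNat + 2 * num v := h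
    omega
  | b :: u, [], h => by
    have h1 := num_pos u
    have h2 : b.toNat + 2 * num u = 1 := h
    omega
  | b :: u, c :: v, h => by
    have h2 : b.toNat + 2 * num u = c.toNat + 2 * num v := h
    have h3 : b.toNat ≤ 1 := Bool.toNat_le b
    have h4 : c.toNat ≤ 1 := Bool.toNat_le c
    have h5 : b.toNat = c.toNat := by omega
    have h6 : b = c := by
      revert h5
      cases b <;> cases c <;> simp
    have h7 : u = v := num_inj' u v (by omega)
    rw [h6, h7]

theorem exists_num' {a : ℕ} (h : a ≠ 0) : ∃ i : List Bool, num i = a := by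
  induction a using Nat.strong_induction_on with
  | _ a ih =>
    rcases Nat.lt_or_ge a 2 with h1 | h1
    · refine ⟨[], ?_⟩
      show 1 = a
      omega
    · obtain ⟨i, hi⟩ := ih (a / 2) (by omega) (by omega)
      rcases Nat.mod_two_eq_zero_or_one a with h2 | h2
      · refine ⟨false :: i, ?_⟩
        show false.toNat + 2 * num i = a
        rw [hi, Bool.toNat_false]
        omega
      · refine ⟨true :: i, ?_⟩
        show true.toNat + 2 * num i = a
        rw [hi, Bool.toNat_true]
        omega

theorem length_of_num_lt {S : ℕ} {w : List Bool} (h : num w < 2 ^ (S + 1)) : w.length ≤ S := by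
  have h1 : Nat.log 2 (num w) < S + 1 := (Nat.log_lt_iff_lt_pow (by norm_num) (num_pos w).ne').2 h
  rw [log_num] at h1
  omega

theorem catN_zero' (a : ℕ) : catN a 0 = 0 := by
  by_contra h
  exact (catN_eq_zero h).2 rfl

theorem vf_fst (P : Prm) (τ Y c p d p' a t : ℕ) : (vf P τ Y c p d p' a (t + 1)).1 =
    vN P τ Y d p' a (vf P τ Y c p d p' a t).1
      ((vf P τ Y c p d p' a t).2 (P.wA τ a (vf P τ Y c p d p' a t).1)) := rfl

theorem vf_snd (P : Prm) (τ Y c p d p' a t x : ℕ) : (vf P τ Y c p d p' a (t + 1)).2 x =
    P.wW x (vf P τ Y c p d p' a (t + 1)).1 ((vf P τ Y c p d p' a t).2 x) := rfl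

theorem vf_zero (P : Prm) (τ Y c p d p' a : ℕ) :
    vf P τ Y c p d p' a 0 = (v0 P c p, P.cm c) := rfl

theorem eq01_le (x y : ℕ) : eq01 x y ≤ 1 := by
  unfold eq01
  split_ifs <;> omega

theorem eq01_one {x y : ℕ} : eq01 x y = 1 ↔ x = y := by
  unfold eq01
  by_cases h : x = y
  · simp [h]
  · simp [h]

theorem mul_le_one' {x y : ℕ} (hx : x ≤ 1) (hy : y ≤ 1) : x * y ≤ 1 :=
  (Nat.mul_le_mul hx hy).trans (by norm_num)

theorem ifz_le {x y z : ℕ} (hy : y ≤ 1) (hz : z ≤ 1) : ifz x y z ≤ 1 := by
  unfold ifz
  split_ifs
  · exact hy
  · exact hz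

theorem vF_le (P : Prm) (d p' a Q v : ℕ) : vF P d p' a Q v ≤ 1 := by
  unfold vF
  exact ifz_le (accN_le _) (mul_le_one' (eq01_le _ _) (mul_le_one' (ifz_le (eq01_le _ _) le_rfl)
    (ifz_le le_rfl (eq01_le _ _))))

theorem mul_eq_one' {x y : ℕ} : x * y = 1 ↔ x = 1 ∧ y = 1 := mul_eq_one

theorem cap_small {V x : ℕ} (h : x ≤ 1) : capN V x = x :=
  capN_of_lt (lt_of_le_of_lt h (Nat.one_lt_two_pow (by omega)))

theorem cmp : Pool.Agent.Helper81.Sus3.CMP_stmt := by
  intro A w y P hC hSV c p₀ d p' a τ Y g f hc0 hRep hlen hkn hY hu hV ha
  set p : ℕ → ℕ := fun t => p₀ + ∑ i ∈ range t, (A.ask (A.run g f i).1).toNat with hp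
  have hp0 : p 0 = p₀ := by simp [hp]
  have hps : ∀ t, p (t + 1) = p t + (A.ask (A.run g f t).1).toNat := fun t => by
    simp only [hp]
    rw [sum_range_succ]
    omega
  have hpm : ∀ s t, s ≤ t → p s ≤ p t := fun s t h => by
    simp only [hp]
    have : ∑ i ∈ range s, (A.ask (A.run g f i).1).toNat ≤
        ∑ i ∈ range t, (A.ask (A.run g f i).1).toNat :=
      sum_le_sum_of_subset (range_mono h)
    omega
  have hpu : ∀ t ≤ τ, p t ≤ P.u := fun t ht => (hpm t τ ht).trans hu
  obtain ⟨hq0, hql, hro, hcl⟩ : num f.1 = P.cq c ∧ f.1.length ≤ P.S ∧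
      (∀ i : List Bool, i.head? = some false → f.2 i = A.mem0 w y i) ∧
      ∀ i : List Bool, i.length ≤ P.S → i.head? ≠ some false →
        P.cl c (num i) = 0 ∨ P.cl c (num i) = num (f.2 i) := by
    rcases hRep with h | h
    · exact absurd h.1 hc0
    · exact h.2
  have hSV' : 2 ^ (P.S + 1) ≤ 2 ^ (P.V + 1) := Nat.pow_le_pow_right (by norm_num) (by omega)
  have hqlt : ∀ t ≤ τ, num (A.run g f t).1 < 2 ^ (P.S + 1) := fun t ht => num_lt (hlen t ht).1
  -- the invariant
  have inv : ∀ t ≤ τ, (vf P τ Y c p₀ d p' a t).1 = P.enc (num (A.run g f t).1) (p t) t ∧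
      ∀ i : List Bool, i.length ≤ P.S → (Known A P c (A.run g f) t i →
        (vf P τ Y c p₀ d p' a t).2 (num i) = num ((A.run g f t).2 i)) ∧
        (¬Known A P c (A.run g f) t i → (vf P τ Y c p₀ d p' a t).2 (num i) = 0) := by
    intro t
    induction t with
    | zero =>
      intro _
      constructor
      · rw [vf_zero]
        show capN P.V (P.enc (P.cq c) p₀ 0) = P.enc (num f.1) (p 0) 0
        rw [← hq0, hp0]
        exact capN_of_lt (enc_lt P (num_lt hql) (hp0 ▸ hpu 0 (Nat.zero_le _)) (Nat.zero_le τ) hV)
      · intro i hi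
        rw [vf_zero]
        constructor
        · intro hk
          show P.cm c (num i) = num (f.2 i)
          have hM : (f.2 i).length ≤ P.Z := (hlen 0 (Nat.zero_le _)).2.2 i hi
          unfold Prm.cm
          by_cases hh : i.head? = some false
          · rcases i with _ | ⟨b, v⟩
            · simp at hh
            · have hb : b = false := by simpa using hh
              subst hb
              have e1 : f.2 (false :: v) = A.init w[bval v]? y[bval v]? := hro _ rfl
              rw [ro_false, ix_false, ifz_ne one_ne_zero, hC.hx, hC.hy, letN_num, letN_num,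
                hC.hini, ← e1]
              exact capN_num hM
          · rw [ro_other hh, ifz_zero]
            rcases hk with hk | hk | ⟨v, hv1, hv2, _⟩
            · exact absurd hk hh
            · rcases hcl i hi hh with h1 | h1
              · exact absurd h1 hk
              · rw [h1]
                exact capN_num hM
            · omega
        · intro hk
          show P.cm c (num i) = 0
          have hh : i.head? ≠ some false := fun h => hk (Or.inl h)
          have h0 : P.cl c (num i) = 0 := by
            by_contra h
            exact hk (Or.inr (Or.inl h))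
          unfold Prm.cm
          rw [ro_other hh, ifz_zero, h0]
          exact cap_small (Nat.zero_le _)
    | succ t ih =>
      intro ht
      obtain ⟨ih1, ih2⟩ := ih (by omega)
      have htt : t < τ := by omega
      set q := (A.run g f t).1 with hqdef
      set M := (A.run g f t).2 with hMdef
      set q' := (A.run g f (t + 1)).1 with hq'def
      have hq : num q < 2 ^ (P.S + 1) := hqlt t htt.le
      have hq' : num q' < 2 ^ (P.S + 1) := hqlt (t + 1) ht
      have hqlen : q.length ≤ P.S := (hlen t htt.le).1
      have hq'len : q'.length ≤ P.S := (hlen (t + 1) ht).1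
      have halen : (A.addr q).length ≤ P.S := (hlen t htt.le).2.1
      have hpt : p t ≤ P.u := hpu t htt.le
      have hA : P.wA τ a (P.enc (num q) (p t) t) = num (A.addr q) := by
        unfold Prm.wA
        rw [lt01, if_pos (two_le_enc P _ _ _), ifz_ne one_ne_zero, dt_enc P hq hpt, eq01,
          if_neg (by omega), ifz_zero, dq_enc P hq, hC.hA q hqlen, if_pos halen]
        exact capN_num (halen.trans hSV)
      have hv : (vf P τ Y c p₀ d p' a t).2 (P.wA τ a (vf P τ Y c p₀ d p' a t).1) =
          num (M (A.addr q)) := by
        rw [ih1, hA]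
        exact (ih2 _ halen).1 (hkn t htt)
      have hMlen : (M (A.addr q)).length ≤ P.Z := (hlen t htt.le).2.2 _ halen
      have hfN : P.fN (num q) (dig 2 Y (p t)) (num (M (A.addr q))) = num q' := by
        obtain ⟨b', hb'⟩ : ∃ b' : Bool, dig 2 Y (p t) = b'.toNat := by
          have h1 : dig 2 Y (p t) < 2 := dig_lt (by norm_num) _ _
          rcases (by omega : dig 2 Y (p t) = 0 ∨ dig 2 Y (p t) = 1) with h | h
          · exact ⟨false, h⟩
          · exact ⟨true, h⟩
        have hbb : (A.ask q && b') = (A.ask q && g t) := by
          by_cases hask : A.ask q = true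
          · have h1 := hY t htt hask
            change dig 2 Y (p t) = (g t).toNat at h1
            rw [hb'] at h1
            have h2 : b' = g t := by
              revert h1
              cases b' <;> cases g t <;> simp
            rw [h2]
          · have : A.ask q = false := by simpa using hask
            rw [this]
            rfl
        rw [hb', hC.hN q _ b' hqlen hMlen, hbb]
        have e1 : q' = A.next (sd q ++ (A.ask q && g t) :: M (A.addr q)) := run_fst A g f t
        rw [← e1, if_pos hq'len]
      have hK : P.fK (num q) = (A.ask q).toNat := hC.hK q hqlen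
      have hz : P.fK (num q) * eq01 (p t) P.u = 0 := by
        rw [hK]
        by_cases hask : A.ask q = true
        · have h1 : p (t + 1) ≤ P.u := hpu (t + 1) ht
          rw [hps t] at h1
          change p t + (A.ask q).toNat ≤ P.u at h1
          rw [hask] at h1 ⊢
          simp only [Bool.toNat_true] at h1 ⊢
          rw [eq01, if_neg (by omega)]
        · have : A.ask q = false := by simpa using hask
          rw [this]
          simp
      have hN : vN P τ Y d p' a (P.enc (num q) (p t) t) (num (M (A.addr q))) =
          P.enc (num q') (p (t + 1)) (t + 1) := by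
        unfold vN
        rw [lt01, if_pos (two_le_enc P _ _ _), ifz_ne one_ne_zero, dt_enc P hq hpt, eq01,
          if_neg (by omega), ifz_zero, dq_enc P hq, dp_enc P hq hpt, hfN, hC.hA q hqlen,
          if_pos halen, ifz_ne (mul_ne_zero (num_pos _).ne' (num_pos _).ne'), hz, ifz_zero, hK,
          ← hps t]
        exact capN_of_lt (enc_lt P hq' (hpu (t + 1) ht) ht hV)
      have hE : (vf P τ Y c p₀ d p' a (t + 1)).1 = P.enc (num q') (p (t + 1)) (t + 1) := by
        rw [vf_fst, hv, ih1]
        exact hN
      refine ⟨hE, ?_⟩
      intro i hi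
      have hMi : (A.run g f (t + 1)).2 i = A.upd q' i (M i) := run_snd A g f t i
      rw [vf_snd, hE, hMi]
      constructor
      · intro hk
        have hlen' : (A.upd q' i (M i)).length ≤ P.Z := by
          rw [← hMi]
          exact (hlen (t + 1) ht).2.2 i hi
        unfold Prm.wW
        rw [lt01, if_pos (two_le_enc P _ _ _), ifz_ne one_ne_zero, dq_enc P hq', hC.hG q' hq'len]
        by_cases hm : A.msg q' ∧ i.head? ≠ some false
        · have e1 : A.upd q' i (M i) =
              A.write (sd q' ++ (sd i ++ if A.reset (sd q' ++ sd i) then [] else M i)) := by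
            unfold NBM.upd
            rw [if_pos hm]
          rw [hm.1, ro_other hm.2]
          simp only [Bool.toNat_true, Nat.sub_zero, mul_one]
          rw [ifz_ne one_ne_zero]
          by_cases hr : A.reset (sd q' ++ sd i) = true
          · have h1 : P.fW (num q') (num i) ((vf P τ Y c p₀ d p' a t).2 (num i)) =
                P.fW (num q') (num i) (num (M i)) := by
              unfold Prm.fW
              rw [hC.hR q' i hq'len hi, hr]
              simp only [Bool.toNat_true]
              rw [ifz_ne one_ne_zero, ifz_ne one_ne_zero]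
            rw [h1, hC.hW q' i _ hq'len hi ((hlen t htt.le).2.2 i hi), ← e1, if_pos hlen']
            exact capN_num hlen'
          · have hk' : Known A P c (A.run g f) t i := by
              rcases hk with hk | hk | ⟨v, hv1, hv2, hv3, hv4⟩
              · exact Or.inl hk
              · exact Or.inr (Or.inl hk)
              · rcases Nat.lt_or_ge t v with h | h
                · have : v = t + 1 := by omega
                  subst this
                  exact absurd hv4 hr
                · exact Or.inr (Or.inr ⟨v, hv1, h, hv3, hv4⟩)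
            rw [(ih2 i hi).1 hk', hC.hW q' i _ hq'len hi ((hlen t htt.le).2.2 i hi), ← e1,
              if_pos hlen']
            exact capN_num hlen'
        · have e1 : A.upd q' i (M i) = M i := by
            unfold NBM.upd
            rw [if_neg hm]
          have hz' : (A.msg q').toNat * (1 - Prm.ro (num i)) = 0 := by
            by_cases h1 : A.msg q' = true
            · have h2 : i.head? = some false := by
                by_contra h3
                exact hm ⟨h1, h3⟩
              rcases i with _ | ⟨b, v⟩
              · simp at h2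
              · have hb : b = false := by simpa using h2
                subst hb
                rw [ro_false]
                simp
            · have : A.msg q' = false := by simpa using h1
              rw [this]
              simp
          have hk' : Known A P c (A.run g f) t i := by
            rcases hk with hk | hk | ⟨v, hv1, hv2, hv3, hv4⟩
            · exact Or.inl hk
            · exact Or.inr (Or.inl hk)
            · rcases Nat.lt_or_ge t v with h | h
              · have : v = t + 1 := by omega
                subst this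
                left
                by_contra h3
                exact hm ⟨hv3, h3⟩
              · exact Or.inr (Or.inr ⟨v, hv1, h, hv3, hv4⟩)
          rw [hz', ifz_zero, (ih2 i hi).1 hk', e1]
          exact capN_num ((hlen t htt.le).2.2 i hi)
      · intro hk
        have hh : i.head? ≠ some false := fun h => hk (Or.inl h)
        have hk' : ¬Known A P c (A.run g f) t i := by
          intro h
          apply hk
          rcases h with h | h | ⟨v, hv1, hv2, hv3, hv4⟩
          · exact Or.inl h
          · exact Or.inr (Or.inl h)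
          · exact Or.inr (Or.inr ⟨v, hv1, by omega, hv3, hv4⟩)
        rw [(ih2 i hi).2 hk']
        unfold Prm.wW
        rw [lt01, if_pos (two_le_enc P _ _ _), ifz_ne one_ne_zero, dq_enc P hq', hC.hG q' hq'len,
          ro_other hh]
        by_cases hm : A.msg q' = true
        · have hr : A.reset (sd q' ++ sd i) = false := by
            by_contra h
            have h' : A.reset (sd q' ++ sd i) = true := by simpa using h
            exact hk (Or.inr (Or.inr ⟨t + 1, by omega, le_rfl, hm, h'⟩))
          have hfW : P.fW (num q') (num i) 0 = 0 := by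
            unfold Prm.fW
            rw [hC.hR q' i hq'len hi, hr]
            show fnN P.eW P.Z P.Λ P.β P.B
              (catN (sdN (num q')) (catN (sdN (num i)) (ifz 0 0 1))) = 0
            rw [ifz_zero, catN_zero', catN_zero']
            rfl
          rw [hm, hfW]
          simp only [Bool.toNat_true, Nat.sub_zero, mul_one]
          rw [ifz_ne one_ne_zero]
          exact cap_small (Nat.zero_le _)
        · have : A.msg q' = false := by simpa using hm
          rw [this]
          simp only [Bool.toNat_false, zero_mul]
          rw [ifz_zero]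
          exact cap_small (Nat.zero_le _)
  -- the final check
  obtain ⟨inv1, inv2⟩ := inv τ le_rfl
  have hqτ := hqlt τ le_rfl
  have hpτ := hpu τ le_rfl
  have hAτ : P.wA τ a (P.enc (num (A.run g f τ).1) (p τ) τ) = a := by
    unfold Prm.wA
    rw [lt01, if_pos (two_le_enc P _ _ _), ifz_ne one_ne_zero, dt_enc P hqτ hpτ, eq01,
      if_pos rfl, ifz_ne one_ne_zero]
    exact capN_of_lt (lt_of_lt_of_le ha hSV')
  have fin1 : (vf P τ Y c p₀ d p' a (τ + 1)).1 =
      vF P d p' a (P.enc (num (A.run g f τ).1) (p τ) τ) ((vf P τ Y c p₀ d p' a τ).2 a) := by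
    rw [vf_fst, inv1, hAτ]
    unfold vN
    rw [lt01, if_pos (two_le_enc P _ _ _), ifz_ne one_ne_zero, dt_enc P hqτ hpτ]
    have e1 : eq01 τ τ = 1 := by rw [eq01, if_pos rfl]
    rw [e1, ifz_ne one_ne_zero]
    exact cap_small (vF_le _ _ _ _ _ _)
  have fin_le : (vf P τ Y c p₀ d p' a (τ + 1)).1 ≤ 1 := by
    rw [fin1]
    exact vF_le _ _ _ _ _ _
  have fin2 : ∀ T, τ < T → (vf P τ Y c p₀ d p' a T).1 = (vf P τ Y c p₀ d p' a (τ + 1)).1 := by
    intro T hT
    induction T, hT using Nat.le_induction with
    | base => rfl
    | succ T _ ih =>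
      rw [vf_fst P τ Y c p₀ d p' a T, ih]
      have e1 : lt01 1 (vf P τ Y c p₀ d p' a (τ + 1)).1 = 0 := by
        rw [lt01, if_neg (by omega)]
      unfold vN
      rw [e1, ifz_zero]
      exact cap_small fin_le
  have key : (vf P τ Y c p₀ d p' a (τ + 1)).1 = 1 ↔ FC A P c p₀ d p' a τ g f := by
    rw [fin1]
    unfold vF FC
    rw [dq_enc P hqτ, dp_enc P hqτ hpτ]
    rcases Nat.eq_zero_or_pos d with hd | hd
    · rw [hd, ifz_zero, accN_num]
      constructor
      · intro h
        exact ⟨fun _ => h, fun h1 => absurd rfl h1⟩
      · rintro ⟨h, -⟩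
        exact h rfl
    · rw [ifz_ne hd.ne', mul_eq_one', mul_eq_one', eq01_one]
      have hB : ifz (lt01 P.u p') (eq01 (p τ) p') 1 = 1 ↔
          (p' ≤ P.u → p' = p₀ + ∑ i ∈ range τ, (A.ask (A.run g f i).1).toNat) := by
        rcases Nat.lt_or_ge P.u p' with h | h
        · rw [lt01, if_pos h, ifz_ne one_ne_zero]
          exact ⟨fun _ h1 => absurd h1 (by omega), fun _ => rfl⟩
        · rw [lt01, if_neg (by omega), ifz_zero, eq01_one]
          exact ⟨fun h1 _ => h1.symm, fun h1 => (h1 h).symm⟩
      have hA' : ifz a 1 (eq01 ((vf P τ Y c p₀ d p' a τ).2 a) (P.cl d a)) = 1 ↔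
          (a ≠ 0 → ∀ i : List Bool, num i = a →
            (Known A P c (A.run g f) τ i → P.cl d a = num ((A.run g f τ).2 i)) ∧
            (¬Known A P c (A.run g f) τ i → P.cl d a = 0)) := by
        rcases Nat.eq_zero_or_pos a with h | h
        · rw [h, ifz_zero]
          exact ⟨fun _ h1 => absurd rfl h1, fun _ => rfl⟩
        · rw [ifz_ne h.ne', eq01_one]
          constructor
          · intro h1 _ i hi
            have hil : i.length ≤ P.S := length_of_num_lt (hi ▸ ha)
            obtain ⟨h2, h3⟩ := inv2 i hil
            rw [hi] at h2 h3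
            exact ⟨fun hk => h1.symm.trans (h2 hk), fun hk => h1.symm.trans (h3 hk)⟩
          · intro h1
            obtain ⟨i, hi⟩ := exists_num' h.ne'
            have hil : i.length ≤ P.S := length_of_num_lt (hi ▸ ha)
            obtain ⟨h2, h3⟩ := inv2 i hil
            rw [hi] at h2 h3
            obtain ⟨h4, h5⟩ := h1 h.ne' i hi
            by_cases hk : Known A P c (A.run g f) τ i
            · exact (h2 hk).trans (h4 hk).symm
            · exact (h3 hk).trans (h5 hk).symm
      rw [hB, hA']
      constructor
      · rintro ⟨h1, h2, h3⟩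
        exact ⟨fun h => absurd h hd.ne', fun _ => ⟨h1.symm, h2, h3⟩⟩
      · rintro ⟨-, h⟩
        obtain ⟨h1, h2, h3⟩ := h hd.ne'
        exact ⟨h1.symm, h2, h3⟩
  refine ⟨fun hFC T hT => (fin2 T hT).trans (key.2 hFC), fun T hT => ?_, ?_⟩
  · rcases Nat.lt_or_ge τ T with h | h
    · exact key.1 ((fin2 T h).symm.trans hT)
    · rw [(inv T h).1] at hT
      have := two_le_enc P (num (A.run g f T).1) (p T) T
      omega
  · classical
    unfold chs
    rw [← Set.ncard_coe_finset]
    refine Set.ncard_le_ncard ?_ ((Set.finite_lt_nat τ).subset fun t ht => ht.1)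
    intro t ht
    rw [mem_coe, mem_filter, mem_range] at ht
    have ht2 : P.wQ (vf P τ Y c p₀ d p' a (t + 1)).1 = 0 := ht.2
    rcases Nat.lt_or_ge t τ with h | h
    · refine ⟨h, ?_⟩
      rw [(inv (t + 1) h).1] at ht2
      unfold Prm.wQ at ht2
      rw [lt01, if_pos (two_le_enc P _ _ _), ifz_ne one_ne_zero, dq_enc P (hqlt (t + 1) h),
        hC.hG _ (hlen (t + 1) h).1] at ht2
      by_contra hcon
      have : A.msg (A.run g f (t + 1)).1 = false := by simpa using hcon
      rw [this] at ht2
      simp at ht2
    · have : t = τ := by omega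
      subst this
      exfalso
      unfold Prm.wQ at ht2
      have e1 : lt01 1 (vf P t Y c p₀ d p' a (t + 1)).1 = 0 := by
        rw [lt01, if_neg (by omega)]
      rw [e1, ifz_zero] at ht2
      exact one_ne_zero ht2

end Pool.Agent.Helper85.Sus3
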